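import Mathlib

/-!
# A connected non-bipartite graph whose fully active cop number exceeds its cop number

We define the passive and the fully active game of Cops and Robbers with `k` cops,
the two cop numbers, and exhibit a connected non-bipartite graph on 14 vertices with
`c(G) ≤ 2 < c_a(G)`.
-/

set_option autoImplicit false

namespace Pool.Agent.Results.MP_bb83f1_co.ActiveExceedsPassive

variable {V : Type*}

/-- A legal step of a player (a cop or the robber) from `u` to `v`. In the fully active game
(`active = true`) a player has to move along an edge; in the passive game (`active = false`)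
a player moves along an edge or stays where it is. -/
def Step (G : SimpleGraph V) (active : Bool) (u v : V) : Prop :=
  G.Adj u v ∨ (active = false ∧ u = v)

/-- The positions of the `k` cops after `t` cop turns, when the cops start at `c₀`, follow the
strategy `σ`, and the robber's successive positions are `r 0, r 1, …`: on their cop turn number
`t + 1` the cops, who have seen the robber's positions `r 0, …, r t`, go to `σ [r 0, …, r t]`. -/
def copPos {k : ℕ} (c₀ : Fin k → V) (σ : List V → Fin k → V) (r : ℕ → V) : ℕ → Fin k → V
  | 0 => c₀
  | t + 1 => σ ((List.range (t + 1)).map r)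

/-- `k` cops have a winning strategy: there are starting vertices `c₀` and a strategy `σ` such that
for every legal infinite walk `r` of the robber (he chooses `r 0` after the cops have chosen `c₀`;
the turns alternate, cops first), all moves of all cops are legal, and at some
moment some cop occupies the robber's vertex: either after the robber's turn number `t`
(placement, for `t = 0`) or after the cop turn number `t + 1`. -/
def CopsWin (G : SimpleGraph V) (active : Bool) (k : ℕ) : Prop :=
  ∃ (c₀ : Fin k → V) (σ : List V → Fin k → V), ∀ r : ℕ → V,
    (∀ t, Step G active (r t) (r (t + 1))) →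
      (∀ t i, Step G active (copPos c₀ σ r t i) (copPos c₀ σ r (t + 1) i)) ∧
      ∃ t i, copPos c₀ σ r t i = r t ∨ copPos c₀ σ r (t + 1) i = r t

/-- The usual cop number `c(G)`: the least number of cops that win the passive game. -/
noncomputable def copNumber (G : SimpleGraph V) : ℕ := sInf {k | CopsWin G false k}

/-- The fully active cop number `c_a(G)`: the least number of cops that win the fully
active game. -/
noncomputable def activeCopNumber (G : SimpleGraph V) : ℕ := sInf {k | CopsWin G true k}

/-! ### General lemmas -/

/-- A positional strategy `choose` played through the history. -/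
theorem copPos_foldl {k : ℕ} (c₀ : Fin k → V) (choose : (Fin k → V) → V → (Fin k → V))
    (r : ℕ → V) (t : ℕ) :
    copPos c₀ (fun h => h.foldl choose c₀) r (t + 1) =
      choose (copPos c₀ (fun h => h.foldl choose c₀) r t) (r t) := by
  cases t with
  | zero => simp [copPos, List.range_succ]
  | succ t =>
    simp only [copPos]
    rw [List.range_succ (n := t + 1), List.map_append, List.foldl_append]
    simp

theorem copsWin_of_positional {k : ℕ} (G : SimpleGraph V) (active : Bool)
    (c₀ : Fin k → V) (choose : (Fin k → V) → V → (Fin k → V))
    (legal : ∀ c r i, Step G active (c i) (choose c r i))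
    (rank : (Fin k → V) → V → ℕ)
    (hdec : ∀ c r, (∃ i, c i = r) ∨ (∃ i, choose c r i = r) ∨
      ∀ r', Step G active r r' → rank (choose c r) r' < rank c r) :
    CopsWin G active k := by
  refine ⟨c₀, fun h => h.foldl choose c₀, fun r hr => ?_⟩
  refine ⟨fun t i => ?_, ?_⟩
  · rw [copPos_foldl]; exact legal _ _ _
  · by_contra hcon
    push Not at hcon
    have key : ∀ t, rank (copPos c₀ (fun h => h.foldl choose c₀) r (t + 1)) (r (t + 1)) <
        rank (copPos c₀ (fun h => h.foldl choose c₀) r t) (r t) := by
      intro t
      rcases hdec (copPos c₀ (fun h => h.foldl choose c₀) r t) (r t) with h | h | h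
      · obtain ⟨i, hi⟩ := h
        exact absurd hi (hcon t i).1
      · obtain ⟨i, hi⟩ := h
        refine absurd ?_ (hcon t i).2
        rw [copPos_foldl]; exact hi
      · rw [copPos_foldl]; exact h _ (hr t)
    have key2 : ∀ t, rank (copPos c₀ (fun h => h.foldl choose c₀) r t) (r t) + t ≤
        rank (copPos c₀ (fun h => h.foldl choose c₀) r 0) (r 0) := by
      intro t
      induction t with
      | zero => simp
      | succ t ih => have := key t; omega
    have := key2 (rank (copPos c₀ (fun h => h.foldl choose c₀) r 0) (r 0) + 1)
    omega

/-- With as many cops as vertices the cops win at once (every vertex has a neighbour). -/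
theorem copsWin_all {n : ℕ} (G : SimpleGraph (Fin n)) (active : Bool)
    (nb : Fin n → Fin n) (hnb : ∀ v, G.Adj v (nb v)) : CopsWin G active n := by
  refine ⟨id, fun h => h.foldl (fun c _ i => nb (c i)) id, fun r hr => ⟨fun t i => ?_, 0, r 0, ?_⟩⟩
  · rw [copPos_foldl]; exact Or.inl (hnb _)
  · left; rfl

/-- Duplicating cops does not hurt. -/
theorem copsWin_of_surj {k k' : ℕ} (G : SimpleGraph V) (active : Bool) (f : Fin k' → Fin k)
    (hf : Function.Surjective f) (h : CopsWin G active k) : CopsWin G active k' := by
  obtain ⟨c₀, σ, hσ⟩ := h
  refine ⟨fun i => c₀ (f i), fun l i => σ l (f i), fun r hr => ?_⟩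
  have hpos : ∀ t i, copPos (fun i => c₀ (f i)) (fun l i => σ l (f i)) r t i =
      copPos c₀ σ r t (f i) := by
    intro t i
    cases t <;> rfl
  obtain ⟨h1, t, i, h2⟩ := hσ r hr
  refine ⟨fun t i => ?_, t, ?_⟩
  · rw [hpos, hpos]; exact h1 t (f i)
  · obtain ⟨j, rfl⟩ := hf i
    exact ⟨j, by rw [hpos, hpos]; exact h2⟩

theorem not_copsWin_zero (G : SimpleGraph V) (active : Bool)
    (nb : V → V) (hnb : ∀ v, G.Adj v (nb v)) (v₀ : V) : ¬ CopsWin G active 0 := by
  rintro ⟨c₀, σ, h⟩
  obtain ⟨-, t, i, -⟩ := h (fun t => nb^[t] v₀) (fun t => by
    rw [Function.iterate_succ_apply']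
    exact Or.inl (hnb _))
  exact i.elim0

/-- The robber's evasion: a set of safe states (cops to move). -/
theorem not_copsWin_of_safe {k : ℕ} (G : SimpleGraph V) (active : Bool)
    (safe : (Fin k → V) → V → Prop)
    (hnb : ∀ v, ∃ v', Step G active v v')
    (hstart : ∀ c, ∃ r, safe c r)
    (hstay : ∀ c r, safe c r → ∀ c' : Fin k → V, (∀ i, Step G active (c i) (c' i)) →
      (∀ i, c i ≠ r) ∧ (∀ i, c' i ≠ r) ∧ ∃ r', Step G active r r' ∧ safe c' r') :
    ¬ CopsWin G active k := by
  classical
  rintro ⟨c₀, σ, hwin⟩
  obtain ⟨r₀, hr₀⟩ := hstart c₀
  -- the robber's reply
  let reply : (Fin k → V) → V → V := fun c' r =>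
    if h : ∃ r', Step G active r r' ∧ safe c' r' then h.choose
    else (hnb r).choose
  have hreply : ∀ c' r, Step G active r (reply c' r) := by
    intro c' r
    by_cases h : ∃ r', Step G active r r' ∧ safe c' r'
    · have : reply c' r = h.choose := dif_pos h
      rw [this]; exact h.choose_spec.1
    · have : reply c' r = (hnb r).choose := dif_neg h
      rw [this]; exact (hnb r).choose_spec
  have hreply2 : ∀ c' r, (∃ r', Step G active r r' ∧ safe c' r') → safe c' (reply c' r) := by
    intro c' r h
    have : reply c' r = h.choose := dif_pos h
    rw [this]; exact h.choose_spec.2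
  -- histories: `(st t).1` is the list `[r 0, …, r t]`, `(st t).2` is `r t`
  let st : ℕ → List V × V := fun t => Nat.rec ([r₀], r₀)
    (fun _ s => (s.1 ++ [reply (σ s.1) s.2], reply (σ s.1) s.2)) t
  let r : ℕ → V := fun t => (st t).2
  have hst : ∀ t, st (t + 1) = ((st t).1 ++ [reply (σ (st t).1) (st t).2],
      reply (σ (st t).1) (st t).2) := fun t => rfl
  have hhist : ∀ t, (List.range (t + 1)).map r = (st t).1 := by
    intro t
    induction t with
    | zero => rfl
    | succ t ih =>
      rw [List.range_succ, List.map_append, ih, hst]
      rfl
  have hrsucc : ∀ t, r (t + 1) = reply (copPos c₀ σ r (t + 1)) (r t) := by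
    intro t
    show (st (t + 1)).2 = _
    rw [hst]
    show reply (σ (st t).1) (st t).2 = reply (σ ((List.range (t + 1)).map r)) (r t)
    rw [hhist]
  obtain ⟨hlegal, t, i, hcap⟩ := hwin r (fun t => by rw [hrsucc]; exact hreply _ _)
  have hsafe : ∀ t, safe (copPos c₀ σ r t) (r t) := by
    intro t
    induction t with
    | zero => exact hr₀
    | succ t ih =>
      obtain ⟨-, -, h⟩ := hstay _ _ ih (copPos c₀ σ r (t + 1)) (hlegal t)
      rw [hrsucc]
      exact hreply2 _ _ h
  obtain ⟨h1, h2, -⟩ := hstay _ _ (hsafe t) (copPos c₀ σ r (t + 1)) (hlegal t)
  rcases hcap with h | h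
  · exact h1 i h
  · exact h2 i h

/-! ### The graph -/

/-- Neighbours of the 14 vertices. -/
def nbrs : Fin 14 → List (Fin 14)
  | 0 => [1, 2, 3, 4]
  | 1 => [0, 5, 6, 7]
  | 2 => [0, 6, 8, 9]
  | 3 => [0, 10, 11]
  | 4 => [0, 11, 12]
  | 5 => [1, 8, 12]
  | 6 => [1, 2, 11]
  | 7 => [1, 10, 13]
  | 8 => [2, 5, 10]
  | 9 => [2, 12, 13]
  | 10 => [3, 7, 8]
  | 11 => [3, 4, 6, 13]
  | 12 => [4, 5, 9]
  | 13 => [7, 9, 11]

/-- The graph on 14 vertices with 23 edges. -/
def graph : SimpleGraph (Fin 14) where
  Adj u v := v ∈ nbrs u
  symm := ⟨by decide⟩
  loopless := ⟨by decide⟩

instance : DecidableRel graph.Adj := fun u v => inferInstanceAs (Decidable (v ∈ nbrs u))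

theorem graph_connected : graph.Connected := by
  have h0 : ∀ v : Fin 14, v ≠ 0 → ∃ u : Fin 14, u < v ∧ graph.Adj u v := by decide
  have h1 : ∀ (m : ℕ) (v : Fin 14), v.val = m → graph.Reachable 0 v := by
    intro m
    induction m using Nat.strong_induction_on with
    | _ m ih =>
      intro v hv
      by_cases hz : v = 0
      · subst hz; exact SimpleGraph.Reachable.refl _
      · obtain ⟨u, hu, ha⟩ := h0 v hz
        exact (ih u.val (by rw [← hv]; exact hu) u rfl).trans ha.reachable
  have : Nonempty (Fin 14) := ⟨0⟩
  exact SimpleGraph.Connected.mk (fun u v => (h1 _ u rfl).symm.trans (h1 _ v rfl))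

theorem graph_not_bipartite : ¬ graph.IsBipartite := by
  rintro ⟨C⟩
  have a1 : graph.Adj 0 1 := by decide
  have a2 : graph.Adj 1 5 := by decide
  have a3 : graph.Adj 5 8 := by decide
  have a4 : graph.Adj 8 2 := by decide
  have a5 : graph.Adj 2 0 := by decide
  have h1 := C.valid a1
  have h2 := C.valid a2
  have h3 := C.valid a3
  have h4 := C.valid a4
  have h5 := C.valid a5
  generalize C 0 = x0 at *
  generalize C 1 = x1 at *
  generalize C 5 = x5 at *
  generalize C 8 = x8 at *
  generalize C 2 = x2 at *
  revert x0 x1 x5 x8 x2
  decide

/-! ### Two passive cops win -/

/-- The table of the passive strategy: the entry of the state `(a, b, r)` is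
`256 * a' + 16 * b' + rank`, where `(a', b')` is the move of the cops. -/
def table : ℕ :=
  0xdd07977b1797791797771796797796796797797796dc0dc0b41756791757741796751741743956797796db0767db0767931767731761767741731767767767da0986b31da0931781731786787933731787786976d907c1b21725d90727721724727925725721727726d80956b217a1921d80721724751925725721786726d70915b117a1911917d70914917915715917711916d609157b1725911727711d60727915715721711726d507c1b11756911781711914d50915715956711916d407c17b1707901707701b02707d40743707707701d307077b17a1901707701b02707933d30707707701d20986b01725791781701761707904704d20786701d10915b01756901707701761751904704956d10701d00915b01725901707701b02707741731721711d00cd0cd04b1576491577471596571471473596597976457cc04564574914574575964514414575964574574d1cb0cb05379315375374615314314315665664679a5ca0474ca09314814715865314314315865865864d1c904d4427c905274275265214214274215264279a5c809a54a1921c805865264514214a24215265864d1c704744a1911517c709145114114a24a7411916914c604b1427911517916c60511411916421411916914c50c15486911481586914c50411483586411586506c404b1507901507507403501c405075065064019a5c304b14a19015075a6403501401c30506506401506c209044864914815864615014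01483c20506401914c10474576901457471461451401473506c10401914c00904427901507916403501401431421411c00bd0677bd0677391677371671677471371677677677d41bc0bc03573913573576413513413416566563573d1667bb0667466667366361667341331667667367d31387ba0ba03873813716313874313316866863873d13c1b90326b906276d66216274213213213c7327d21356b803a1626b806a56213514213213216563273d1416b703a16d6617b706116174113114a7311317d11416b60326466617366b60617411311321311317d113c1b503866c5381616611b50411311656311317d013c1b406076c5607306601607b403016073c7301d01607b303a14066076a5601607401b304a7607301d01387b20326391381306361387401301b20686301d01356b10357406357371361351401301656b10301d01416b00326406607306601607341301321311b00ad08963b1ad03918713717967973933717978767967c5ac0394ac03918417417963513413418568567963d1767ab0ab0767831731361767341331866866367377387386aa03873813717863873873313877863873d13c1394a90a908217217247273c23213213c7726724356a25a80726a807217243513533213217867263d13173d4a70317811a708168173173118163113177243173b1a60726811711a607277263113213117267c53c17c5a50856381711786a503c23118163118567c53c13b1a408c6801701303707a403018068063018067073b1a30707801701303707707a30806806301724896394a2039138170136138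7393301a20786301806356704a10856801371361351353301806a10301724317704a00726801701303707341301321311a009d0c712b12759d0277271274277295275271277276d419c0d442479c02572472562512412472412562472d1c319b02369b0267d66261267241231231267237d31c319349a09a0281271274277c322312312772762d12c12d52d69902c72272272c72952d62212c7227d21c212a52a19809802272562519252a52212562272d1c112152a1970216970274216915275211211215d11c112b1216960216216960216915216211211215d112c12152169502812169149502c5216211211215d012c12b1207940207d06d03207940d06201207201d01c012b12a1930207d06d03207c32930201207201d01c01d03286920281d06261207904286920207201d01c01d03275910216271261251904275201910201d01c01d03216900216216d032162412312012119008d05962b1a712918d0271274571295275271876276a958c0a95a412918c0856256251241a422412568562d15368b0a312668b0a652615312412312315662372745362a58a02768a02712745315332312315862762d12c12d5a21890890227526521295a252215262272a52562a52a12558805862562512562a52212565862d12162152a12168708702745112162752112112152152162b1a11525860815860511216a152112112152152c1215a112558508152158502c5a152112112152062c12b1a01206840a05205501840a422015062012a55062b12a1206830a05205501533830201506201a25506205a01291820a05261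501295a05820506201274216205a01255810271261251206275201810201215216205a015258008152055012412312012118007d01951b1a711911977d0194197195175197171196d417c0744a411911577c0194151141a421571411961d11467b0a31d661677b0161167141131167131137d31137d347a01371817a01861871371311861311371d11c1125a21790126790194126195725121121125d211261251a11267807807241511261a51211211251d11d61d51a11171a77701171a71d61751a7111117d111261b1a11126126760760126126715121111125d111c11c5a111171817501867501c5715186111117d011c11b1a01d06107740d03107740a42107101101d011071b11a1d06107730d03107d06730107101101d01195d03a01191181720161126195704720101101d01156d03a01d06107710161151156704107710101d01126d03a01126126700d031261411311211017006d01951b12751911971716d01971951752711711961946c0b411571911571966c01511411962411411961d11466b02362661671666b0167141131231131137274137b316a02761811716a01872761312311312761d11c1b21126690126126690126195126121121125125126b211a12556801856801511261a51211211251d11d6b111a12162166706702161d61752111112151251261b11261261261266601261261261211111251c51c1b111862551811856506501c51862111112151c51c11b11076c51071066401076401062011011012a51071b11a12061076a5630107206630201101101194195b011261911811856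20126195106620101101274156b01275255216171610151156175201610101125126b011261261261066001261411311211016005d0c711b15761918711711945d01951755961711961945c01c58461918411961945c01418435961411961d1c315b0836c658311661615b0141131566131137c75c31c755a05861811711865a0c321311861315861d11c1125126590821126194590195126121121125125c211251a1525580185125580c251a51211211251d1c111d51a1117811570816570c15175816111117125c111b1126525811815560560c151261211111251c51c11c51865861811851865501c51861861115861c51c11b1806c05801106105540540843506101101106c011b11a1c05801106105530c32530506101101194c01105126191181185161520195106520101101c15c01105576c05801171161510c05175506510101125c011051265258018151055001411311211015004d0c710b10770910770710b20774d04730770770710564c0b410570910570570430514c00570560560410d1c314b0067c650670360610674b0031067067031c75c31b314a0c860810710330774a00310860860310d10c1b210274900270d60d30274900d6021027021026c21b210a10264800a50250514804a20210560210d1c11b110a10d60174700d30174704a2017011011c15c110b1017c65017016460017460016021011011c150c1b110860c50810160154504504830560110110070c10b10070c50070070b2007440007007007001ca6c010b10a1c050070a50b2007430430007007001026c01b0108609108108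6061007420483420086001c15c01b01007c05007071061051410473056410001c15c01b01007c05007016b020074000310210114003d00770b1a710910770710b20773933d0077077071a953c0b41a41091057a560430510413c00560560410d10673b0a31046067a650610670413b0067067031086077b313a00770810710330770773a00860860310d10c1b21a213900270d60d30273c2390021027021a25056b210a10263800a50250513533800210560210d1017b110a10d60173700d30170d6370017011011a250170b1a11026017a653600170263600210110110160c1b11a110c50810160153503c2350056011011ac60c10b1a010c5007a050b20073403400070070010070070b10a10070070a50b2007007330007007001a25007b01a01091081a05061007393320320086001016056b01a01056007071061051353310056310001a25007b01a01026007a05b020070413000210113002d08960b12750918710716710770940742d08760710562c00948460918418566410510418432c00560410d10672b02369318310360610670410312b08660312749860742a09310810716310779330312a00860310d10c10d32d62908210d66210270940d62900270212a50560250a19212800a56210519250a52800560210d19150d30a19118112706112169150742700110119149150b12169118118152602169150162600110119140c10150869110818156112500c50162500110112060c10b18069018018066010072408432408060012a50070b10a19018010a5601007933230230806001026896094086091081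0860610070940862200860012749150742759018010710610519040742102100019149159042169018018156012160410312000112001d01950b15760910770716715710940745961d00711941c00947560910577416410510417430561c00410d11461b00670460677310615310410315661b00310865360741a05860810716315315330310861a00310d10c10d37251901267216215210947250211900217240560250a15251807216210510260a50211800210d11d60d30a10d60171706115110d60740171700117241260b17255251267111605110267150211600111c50c10150860c50817116111500c57150561500111c50c10b10070c50077016015011407435061400011065060b10a15060077016015015331305061300011941950947250910817010615010947041201200010160560745760560070710610510560740561100017241267047255251267016015010410310211001000d01950b12750910770710b20774713712711710d01940c00940570910571960430510413412411410c00d11460b02360460670360610670410312311310b02740770740a02760810710330774310312311310a00d10c10d31260901260d60d31264213210211210901250560250a12550800a50250514213210211210800d11d60d30a10d62160700d32164113112110110701251260b11260261260160601264113110210110601c50c10150860c50811850150504113112110110501c50c10b10070c50071060b20070403012011010402a50070b10a12060070a50b2007401030201101030194195094086091081185061126401301020101020274056074275255216071061051401301201010010125126015126026126016033126041031021011000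

def entry (a b r : Fin 14) : ℕ := (table >>> (12 * ((14 * a.val + b.val) * 14 + r.val))) % 4096

def moveA (a b r : Fin 14) : Fin 14 := Fin.ofNat 14 (entry a b r / 256)

def moveB (a b r : Fin 14) : Fin 14 := Fin.ofNat 14 (entry a b r / 16 % 16)

def rk (a b r : Fin 14) : ℕ := entry a b r % 16

theorem table_legal : ∀ a b r : Fin 14,
    (a = moveA a b r ∨ moveA a b r ∈ nbrs a) ∧ (b = moveB a b r ∨ moveB a b r ∈ nbrs b) := by
  decide +kernel

theorem table_rank : ∀ a b r : Fin 14, a = r ∨ b = r ∨ moveA a b r = r ∨ moveB a b r = r ∨
    ∀ r' ∈ (r :: nbrs r), rk (moveA a b r) (moveB a b r) r' < rk a b r := by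
  decide +kernel

theorem two_passive_cops_win : CopsWin graph false 2 := by
  refine copsWin_of_positional graph false (fun _ => 0)
    (fun c r => ![moveA (c 0) (c 1) r, moveB (c 0) (c 1) r]) ?_
    (fun c r => rk (c 0) (c 1) r) ?_
  · intro c r i
    obtain ⟨h1, h2⟩ := table_legal (c 0) (c 1) r
    fin_cases i
    · rcases h1 with h | h
      · exact Or.inr ⟨rfl, h⟩
      · exact Or.inl h
    · rcases h2 with h | h
      · exact Or.inr ⟨rfl, h⟩
      · exact Or.inl h
  · intro c r
    rcases table_rank (c 0) (c 1) r with h | h | h | h | h
    · exact Or.inl ⟨0, h⟩
    · exact Or.inl ⟨1, h⟩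
    · exact Or.inr (Or.inl ⟨0, h⟩)
    · exact Or.inr (Or.inl ⟨1, h⟩)
    · refine Or.inr (Or.inr fun r' hr' => ?_)
      refine h r' ?_
      rcases hr' with h' | ⟨-, h'⟩
      · exact List.mem_cons_of_mem _ h'
      · subst h'; exact List.mem_cons_self

/-! ### Two active cops do not win -/

/-- The safe states of the robber in the active game: bit number `(14 * a + b) * 14 + r`. -/
def safeTable : ℕ :=
  0x55fc547549906715ed05b45f5539117452e44d943a5471560151edcf161e847372e8c32516589b31658e861ac82b412dc054985875e9d227168d2834c957a01a147a64e994a25c117a0419e847489fa77218fa4369d7231a916226c8db822e813a6015ecdcb168c86337ec8db25e45b933645aa06c8cba3460de0416e8c34a0fa43236fadb6967299ab662cacb4b89ae863ac045f49454c95a7525e5a596df5339297432c4cd18386c71b6054e65895e8323116e72994ce77b99a667a8cec34b8dc637a01176cc51a16a453366ad92976699bb766cc8b52c98b872ec014ba58e1e9a22616aa2ca0cb27a89b327ae8e9a4aa9c327a044da1864e9b23606cb2d24cd33b08b523a6cedb0b2cc533a050eac82528b82232eb89a60e34b8b2624aac2cbcbaf063ca05472d045c13a043463a186c73718b87270ccc53c18fc73f005582dc05e83a603783ac06d837a0bb027a0ce83ca0fc03fe0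

def safeB (a b r : Fin 14) : Bool := safeTable.testBit ((14 * a.val + b.val) * 14 + r.val)

theorem safe_start : ∀ a b : Fin 14, ∃ r, safeB a b r = true := by
  decide +kernel

theorem safe_stay : ∀ a b r : Fin 14, safeB a b r = true →
    ∀ a' ∈ nbrs a, ∀ b' ∈ nbrs b, (a ≠ r ∧ b ≠ r) ∧ (a' ≠ r ∧ b' ≠ r) ∧
      ∃ r' ∈ nbrs r, safeB a' b' r' = true := by
  decide +kernel

theorem nb_exists : ∀ v : Fin 14, ∃ v', graph.Adj v v' := by decide

theorem two_active_cops_lose : ¬ CopsWin graph true 2 := by
  refine not_copsWin_of_safe graph true (fun c r => safeB (c 0) (c 1) r = true) ?_ ?_ ?_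
  · intro v
    obtain ⟨v', h⟩ := nb_exists v
    exact ⟨v', Or.inl h⟩
  · intro c
    exact safe_start _ _
  · intro c r hs c' hc'
    have hA : c' 0 ∈ nbrs (c 0) := by
      rcases hc' 0 with h | ⟨h, -⟩
      · exact h
      · exact absurd h (by decide)
    have hB : c' 1 ∈ nbrs (c 1) := by
      rcases hc' 1 with h | ⟨h, -⟩
      · exact h
      · exact absurd h (by decide)
    obtain ⟨⟨h1, h2⟩, ⟨h3, h4⟩, r', hr', h5⟩ := safe_stay (c 0) (c 1) r hs _ hA _ hB
    refine ⟨?_, ?_, r', Or.inl hr', h5⟩
    · intro i; fin_cases i
      · exact h1
      · exact h2
    · intro i; fin_cases i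
      · exact h3
      · exact h4

/-- **Main result.** There is a finite connected non-bipartite graph whose fully active cop number
is larger than its cop number. -/
theorem result : ∃ (n : ℕ) (G : SimpleGraph (Fin n)), G.Connected ∧ ¬ G.IsBipartite ∧
    copNumber G < activeCopNumber G := by
  refine ⟨14, graph, graph_connected, graph_not_bipartite, ?_⟩
  have h1 : copNumber graph ≤ 2 := Nat.sInf_le two_passive_cops_win
  have hne : {k | CopsWin graph true k}.Nonempty := by
    refine ⟨14, copsWin_all graph true (fun v => (nbrs v).headD 0) ?_⟩
    decide
  have h2 : CopsWin graph true (activeCopNumber graph) := Nat.sInf_mem hne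
  have h3 : 2 < activeCopNumber graph := by
    by_contra hle
    push Not at hle
    generalize activeCopNumber graph = m at h2 hle
    interval_cases m
    · exact not_copsWin_zero graph true (fun v => (nbrs v).headD 0) (by decide) 0 h2
    · exact two_active_cops_lose (copsWin_of_surj graph true (fun _ => 0)
        (fun i => ⟨0, Subsingleton.elim _ _⟩) h2)
    · exact two_active_cops_lose h2
  omega

end Pool.Agent.Results.MP_bb83f1_co.ActiveExceedsPassive
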